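import Pool.Agent.E8helper11.FZ.Stm

set_option autoImplicit false

/-!
Project FZ (helper11), piece S_BD: the edge boundary in the chain of cliques.
-/

namespace Pool.Agent.E8helper64.FZ

open Finset
open Pool.Agent.E8helper11.FZ

theorem bd : S_BD := by
  classical
  intro T m X hne hnu
  by_cases hmix : ∃ i : Fin (2 * T + 1), ∃ j j' : Fin (m + 1), (i, j) ∈ X ∧ (i, j') ∉ X
  · obtain ⟨i, j, j', hj, hj'⟩ := hmix
    set a : Finset (Fin (m + 1)) := univ.filter fun j => (i, j) ∈ X with ha
    set b : Finset (Fin (m + 1)) := univ.filter fun j => (i, j) ∉ X with hb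
    have hab : a.card + b.card = m + 1 := by
      have := card_filter_add_card_filter_not (s := (univ : Finset (Fin (m + 1)))) (fun j => (i, j) ∈ X)
      rw [card_univ, Fintype.card_fin] at this
      exact this
    have ha1 : 1 ≤ a.card := card_pos.2 ⟨j, by rw [ha, mem_filter]; exact ⟨mem_univ _, hj⟩⟩
    have hb1 : 1 ≤ b.card := card_pos.2 ⟨j', by rw [hb, mem_filter]; exact ⟨mem_univ _, hj'⟩⟩
    have hm : m ≤ (a ×ˢ b).card := by
      rw [card_product]
      obtain ⟨u, hu⟩ := Nat.exists_eq_add_of_le ha1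
      obtain ⟨v, hv⟩ := Nat.exists_eq_add_of_le hb1
      rw [hu, hv] at hab ⊢
      have : u + v + 1 = m := by omega
      nlinarith
    refine hm.trans ?_
    refine card_le_card_of_injOn (fun p => ((i, p.1), (i, p.2))) ?_ ?_
    · intro p hp
      rw [mem_coe, mem_product, ha, hb, mem_filter, mem_filter] at hp
      rw [mem_coe, mem_filter, mem_product, mem_compl]
      refine ⟨⟨hp.1.2, hp.2.2⟩, ?_⟩
      refine (Or.inl ⟨rfl, ?_⟩ : Ad (Sum.inl (i, p.1)) (Sum.inl (i, p.2)))
      intro h
      simp only at h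
      have := hp.1.2
      rw [h] at this
      exact hp.2.2 this
    · intro p _ q _ h
      simp only [Prod.mk.injEq, true_and] at h
      exact Prod.ext h.1 h.2
  · have hrow : ∀ (i : Fin (2 * T + 1)) (j j' : Fin (m + 1)), (i, j) ∈ X → (i, j') ∈ X := by
      intro i j j' h
      by_contra h'
      exact hmix ⟨i, j, j', h, h'⟩
    -- consecutive rows of different status
    have hcons : ∃ i i' : Fin (2 * T + 1), (i' : ℕ) = i + 1 ∧ ¬ ((i, (0 : Fin (m + 1))) ∈ X ↔ (i', (0 : Fin (m + 1))) ∈ X) := by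
      by_contra hc
      have hc' : ∀ i i' : Fin (2 * T + 1), (i' : ℕ) = i + 1 → ((i, (0 : Fin (m + 1))) ∈ X ↔ (i', (0 : Fin (m + 1))) ∈ X) := by
        intro i i' h
        by_contra h'
        exact hc ⟨i, i', h, h'⟩
      have hall : ∀ k : ℕ, ∀ hk : k < 2 * T + 1, (((0 : Fin (2 * T + 1)), (0 : Fin (m + 1))) ∈ X ↔
          ((⟨k, hk⟩ : Fin (2 * T + 1)), (0 : Fin (m + 1))) ∈ X) := by
        intro k
        induction k with
        | zero => intro hk; exact Iff.rfl
        | succ k ih =>
          intro hk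
          rw [ih (by omega)]
          exact hc' ⟨k, by omega⟩ ⟨k + 1, hk⟩ rfl
      obtain ⟨⟨i, j⟩, hx⟩ := hne
      have h0 : ((0 : Fin (2 * T + 1)), (0 : Fin (m + 1))) ∈ X := (hall i i.2).2 (hrow i j 0 hx)
      apply hnu
      ext ⟨i', j'⟩
      simp only [mem_univ, iff_true]
      exact hrow i' 0 j' ((hall i' i'.2).1 h0)
    obtain ⟨i, i', hii, hst⟩ := hcons
    have hne' : (i, (0 : Fin (m + 1))) ∈ X ∨ (i, (0 : Fin (m + 1))) ∉ X := em _
    have hcard : m ≤ (univ : Finset (Fin (m + 1))).card := by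
      rw [card_univ, Fintype.card_fin]; omega
    refine hcard.trans ?_
    rcases hne' with h | h
    · have h' : (i', (0 : Fin (m + 1))) ∉ X := fun h' => hst ⟨fun _ => h', fun _ => h⟩
      refine card_le_card_of_injOn (fun j => ((i, j), (i', (0 : Fin (m + 1))))) ?_ ?_
      · intro j _
        rw [mem_coe, mem_filter, mem_product, mem_compl]
        refine ⟨⟨hrow i 0 j h, h'⟩, ?_⟩
        exact (Or.inr (Or.inl ⟨hii, rfl⟩) : Ad (Sum.inl (i, j)) (Sum.inl (i', (0 : Fin (m + 1)))))
      · intro j _ k _ h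
        simp only [Prod.mk.injEq, true_and, and_true] at h
        exact h
    · have h' : (i', (0 : Fin (m + 1))) ∈ X := by
        by_contra h'
        exact hst ⟨fun h1 => absurd h1 h, fun h1 => absurd h1 h'⟩
      refine card_le_card_of_injOn (fun j => ((i', (0 : Fin (m + 1))), (i, j))) ?_ ?_
      · intro j _
        rw [mem_coe, mem_filter, mem_product, mem_compl]
        refine ⟨⟨h', fun h1 => h (hrow i j 0 h1)⟩, ?_⟩
        exact (Or.inr (Or.inr ⟨hii, rfl⟩) : Ad (Sum.inl (i', (0 : Fin (m + 1)))) (Sum.inl (i, j)))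
      · intro j _ k _ h
        simp only [Prod.mk.injEq, true_and] at h
        exact h

end Pool.Agent.E8helper64.FZ
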